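import Pool.Agent.Helper53.UBT.Pull

/-!
# Algebraic subgroups of the fibres of abelian schemes and unlikely intersections: definitions
-/

set_option autoImplicit false

open CategoryTheory MonoidalCategory CartesianMonoidalCategory MonObj Limits AlgebraicGeometry
  Pool.Agent.Helper53.UBT

namespace Pool.Agent.Helper13.PK

variable {S : Scheme.{0}} (A : Over S)

/-- An element `P` of the group `A(b)` of the points of the fibre of `A` at `b : T ⟶ S`, as a point of the
scheme `A ×_S T`. -/
noncomputable def fibMap {T : Scheme.{0}} (b : T ⟶ S) (P : Over.mk b ⟶ A) : T ⟶ pullback A.hom b :=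
  pullback.lift P.left (𝟙 T) (by rw [Category.id_comp]; exact Over.w P)

/-- The set of the points of the fibre `A ×_S T` which are given by the elements of `H`. -/
def pts {T : Scheme.{0}} (b : T ⟶ S) (H : Set (Over.mk b ⟶ A)) : Set ↥(pullback A.hom b) :=
  {x | ∃ P ∈ H, x ∈ Set.range (fibMap A b P)}

/-- The Zariski closure in the fibre of a subset of the group of points of the fibre. -/
def zar {T : Scheme.{0}} (b : T ⟶ S) (H : Set (Over.mk b ⟶ A)) : Set ↥(pullback A.hom b) :=
  closure (pts A b H)

/-- `H` is a (Zariski closed) algebraic subgroup of the group of the points of the fibre: it contains all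
the points in its Zariski closure. -/
def IsAlgebraic [GrpObj A] {T : Scheme.{0}} (b : T ⟶ S) (H : Subgroup (Over.mk b ⟶ A)) : Prop :=
  ∀ P : Over.mk b ⟶ A, Set.range (fibMap A b P) ⊆ zar A b H → P ∈ H

/-- The dimension of a subset of the group of the points of the fibre: the Krull dimension of its Zariski
closure. -/
noncomputable def dimension {T : Scheme.{0}} (b : T ⟶ S) (H : Set (Over.mk b ⟶ A)) : WithBot ℕ∞ :=
  topologicalKrullDim (zar A b H)

/-- The preimage in `X`, under the morphism `τ : X ⟶ A`, of the union of the algebraic subgroups of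
codimension greater than `d` of the fibres of `A` (an abelian scheme of relative dimension `g`) at the
`ℚ̄`-points of `S`. -/
def atypical [GrpObj A] (g d : ℕ) {X : Scheme.{0}} (τ : X ⟶ A.left) : Set X :=
  {x | ∃ (s : Spec (.of (AlgebraicClosure ℚ)) ⟶ X) (b : Spec (.of (AlgebraicClosure ℚ)) ⟶ S)
    (P : Over.mk b ⟶ A) (H : Subgroup (Over.mk b ⟶ A)), x ∈ Set.range s ∧ P.left = s ≫ τ ∧
      IsAlgebraic A b H ∧ P ∈ H ∧ dimension A b H + d < g}

/-- The geometric generic points of `X` are mapped by `τ : X ⟶ A` to points of the geometric fibres of `A`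
which are contained in no strict algebraic subgroup. -/
def Nondegenerate [GrpObj A] {X : Scheme.{0}} (τ : X ⟶ A.left) : Prop :=
  ∀ (Ω : Type) [Field Ω] [IsAlgClosed Ω] (y : Spec (.of Ω) ⟶ X) (b : Spec (.of Ω) ⟶ S)
    (P : Over.mk b ⟶ A) (H : Subgroup (Over.mk b ⟶ A)), IsDominant y → P.left = y ≫ τ →
      IsAlgebraic A b H → P ∈ H → H = ⊤

/-- The dimension of an integral scheme of finite type over `ℚ`: the transcendence degree of its function
field (over `ℤ` or `ℚ`). -/
noncomputable def dimV (X : Scheme.{0}) [IsIntegral X] : Cardinal :=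
  Algebra.trdeg ℤ X.functionField

end Pool.Agent.Helper13.PK
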