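import Pool.Agent.Helper13.PK.Sub
import Pool.Agent.Helper53.UBT.Descent

/-!
# Descent of unlikely intersections along dominant morphisms
-/

set_option autoImplicit false

open CategoryTheory MonoidalCategory CartesianMonoidalCategory MonObj Limits AlgebraicGeometry
  Pool.Agent.Helper53.UBT

namespace Pool.Agent.Helper13.PK

variable {U X S : Scheme.{0}} (f : U ⟶ X) (A : Over S) (τ : X ⟶ A.left)

/-- The section of the base change of `A` to `U` given by a morphism to `A`. -/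
noncomputable def sec : Sec (bc (f ≫ τ ≫ A.hom) A) :=
  Over.homMk (pullback.lift (f ≫ τ) (𝟙 U) (by simp)) (pullback.lift_snd _ _ _)

lemma sec_fst : (sec f A τ).left ≫ pullback.fst A.hom (f ≫ τ ≫ A.hom) = f ≫ τ :=
  pullback.lift_fst _ _ _

lemma sec_hom : (sec f A τ).left ≫ (bc (f ≫ τ ≫ A.hom) A).hom = 𝟙 U :=
  pullback.lift_snd _ _ _

variable {f A τ}

lemma tr_left_eq {T : Scheme.{0}} {y : T ⟶ U} {P : Over.mk (y ≫ f ≫ τ ≫ A.hom) ⟶ A}
    (hP : P.left = y ≫ f ≫ τ) : (tr (f ≫ τ ≫ A.hom) A y P).left = y ≫ (sec f A τ).left := by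
  refine pullback.hom_ext ?_ ?_
  · rw [Category.assoc, sec_fst, ← hP]
    exact tr_fst _ _ _ _
  · rw [Category.assoc]
    erw [sec_hom]
    rw [Category.comp_id]
    exact pullback.lift_snd _ _ _

lemma Nondegenerate.pull [GrpObj A] [IsDominant f] (h : Nondegenerate A τ) :
    Nondegenerate (bc (f ≫ τ ≫ A.hom) A) (sec f A τ).left := by
  intro Ω _ _ y b P H hy hP halg hmem
  obtain rfl : y = b := by
    have h1 : P.left ≫ (bc (f ≫ τ ≫ A.hom) A).hom = b := Over.w P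
    rw [← h1, hP, Category.assoc, sec_hom]
    exact (Category.comp_id y).symm
  obtain ⟨Q, rfl⟩ := (tr_bijective (f ≫ τ ≫ A.hom) A y).2 P
  have hH : (H.comap (trEquiv (f ≫ τ ≫ A.hom) A y).toMonoidHom).map
      (trEquiv (f ≫ τ ≫ A.hom) A y).toMonoidHom = H :=
    Subgroup.map_comap_eq_self_of_surjective (trEquiv (f ≫ τ ≫ A.hom) A y).surjective H
  have hQ : Q.left = (y ≫ f) ≫ τ := by
    rw [← tr_fst (f ≫ τ ≫ A.hom) A y Q, hP, Category.assoc, sec_fst, Category.assoc]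
  have hT := h Ω (y ≫ f) (y ≫ f ≫ τ ≫ A.hom) Q
    (H.comap (trEquiv (f ≫ τ ≫ A.hom) A y).toMonoidHom) inferInstance hQ
    ((algebraic_tr (f ≫ τ ≫ A.hom) A y _).1 (by rw [hH]; exact halg)) hmem
  rw [← hH, hT]
  exact Subgroup.map_top_of_surjective _ (trEquiv (f ≫ τ ≫ A.hom) A y).surjective

/-- A `ℚ̄`-point of `U` above an atypical point. -/
lemma atypical_pull [GrpObj A] {g d : ℕ} {s : Spec (.of (AlgebraicClosure ℚ)) ⟶ X}
    {b : Spec (.of (AlgebraicClosure ℚ)) ⟶ S} {P : Over.mk b ⟶ A} {H : Subgroup (Over.mk b ⟶ A)}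
    (hP : P.left = s ≫ τ) (halg : IsAlgebraic A b H) (hmem : P ∈ H) (hdim : dimension A b H + d < g)
    (u : Spec (.of (AlgebraicClosure ℚ)) ⟶ U) (hu : u ≫ f = s) {x : U} (hx : x ∈ Set.range u) :
    x ∈ atypical (bc (f ≫ τ ≫ A.hom) A) g d (sec f A τ).left := by
  subst hu
  obtain rfl : u ≫ f ≫ τ ≫ A.hom = b := by
    have h1 : P.left ≫ A.hom = b := Over.w P
    rw [← h1, hP, Category.assoc, Category.assoc]
  refine ⟨u, u, tr (f ≫ τ ≫ A.hom) A u P, H.map (trEquiv (f ≫ τ ≫ A.hom) A u).toMonoidHom, hx,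
    tr_left_eq (by rw [hP, Category.assoc]), (algebraic_tr (f ≫ τ ≫ A.hom) A u H).2 halg,
    ⟨P, hmem, rfl⟩, ?_⟩
  rw [dimension_tr]
  exact hdim

theorem dense_pull [GrpObj A] [IsIntegral U] [IsIntegral X] [IsDominant f] [LocallyOfFiniteType f]
    (h0 : ∀ V : X.Opens, (V : Set X).Nonempty → CharZero Γ(X, V)) {g d : ℕ}
    (hd : Dense (atypical A g d τ)) :
    Dense (atypical (bc (f ≫ τ ≫ A.hom) A) g d (sec f A τ).left) := by
  obtain ⟨c, hc⟩ := lift_scheme f h0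
  rw [dense_iff_inter_open]
  intro O hO hOn
  obtain ⟨O', hO'n, hO'⟩ := hc ⟨O, hO⟩ hOn
  obtain ⟨y, hyO, s, b, P, H, hys, hP, halg, hmem, hdim⟩ :=
    hd.inter_open_nonempty O' O'.isOpen hO'n
  obtain ⟨L', _, _, u, x, h1, h2, hx, hxO, hu⟩ := hO' (AlgebraicClosure ℚ) s y hys hyO
  have hbij : Function.Bijective (algebraMap (AlgebraicClosure ℚ) L') :=
    IsAlgClosed.algebraMap_bijective_of_isIntegral
  let e : AlgebraicClosure ℚ ≃+* L' := RingEquiv.ofBijective _ hbij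
  refine ⟨x, hxO, atypical_pull hP halg hmem hdim (Spec.map (CommRingCat.ofHom e.symm.toRingHom) ≫ u) ?_ ?_⟩
  · rw [Category.assoc, hu, ← Category.assoc, ← Spec.map_comp, ← CommRingCat.ofHom_comp]
    have h3 : (e.symm.toRingHom).comp (algebraMap (AlgebraicClosure ℚ) L') = RingHom.id _ := by
      ext z
      exact e.symm_apply_apply z
    rw [h3]
    change Spec.map (𝟙 _) ≫ s = s
    rw [Spec.map_id, Category.id_comp]
  · obtain ⟨t, rfl⟩ := hx
    obtain ⟨t'⟩ : Nonempty (Spec (.of (AlgebraicClosure ℚ)) : Scheme.{0}) := inferInstance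
    refine ⟨t', ?_⟩
    rw [Scheme.Hom.comp_apply]
    congr 1
    exact Subsingleton.elim (α := PrimeSpectrum L') _ _

end Pool.Agent.Helper13.PK
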