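import Pool.Agent.Helper13.PK.Defs

/-!
# Transcendence degrees
-/

set_option autoImplicit false

open CategoryTheory AlgebraicGeometry

namespace Pool.Agent.Helper13.PK

/-- The transcendence degree over `ℤ`. -/
noncomputable def td (A : Type) [CommRing A] : Cardinal := Algebra.trdeg ℤ A

lemma trdeg_frac (A K : Type) [CommRing A] [IsDomain A] [CharZero A] [Field K] [Algebra A K]
    [IsFractionRing A K] : td K = td A := by
  have h2 : FaithfulSMul A K := (faithfulSMul_iff_algebraMap_injective A K).2
    (IsFractionRing.injective A K)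
  have h3 : Algebra.IsAlgebraic A K := IsLocalization.isAlgebraic _ (nonZeroDivisors A)
  have h4 : FaithfulSMul ℤ A := (faithfulSMul_iff_algebraMap_injective ℤ A).2
    (by rw [algebraMap_int_eq]; exact RingHom.injective_int _)
  unfold td
  rw [← trdeg_add_eq ℤ A (A := K), trdeg_eq_zero_iff.2 h3, add_zero]

lemma trdeg_rat (A : Type) [CommRing A] [IsDomain A] [Algebra ℚ A] :
    Algebra.trdeg ℚ A = td A := by
  have h2 : FaithfulSMul ℚ A := (faithfulSMul_iff_algebraMap_injective ℚ A).2
    (FaithfulSMul.algebraMap_injective ℚ A)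
  have h3 : Algebra.IsAlgebraic ℤ ℚ := IsLocalization.isAlgebraic _ (nonZeroDivisors ℤ)
  unfold td
  rw [← trdeg_add_eq ℤ ℚ (A := A), trdeg_eq_zero_iff.2 h3, zero_add]

lemma trdeg_alg (K L : Type) [Field K] [CharZero K] [Field L] [Algebra K L] [Algebra.IsAlgebraic K L] :
    td L = td K := by
  have h4 : FaithfulSMul ℤ K := (faithfulSMul_iff_algebraMap_injective ℤ K).2
    (by rw [algebraMap_int_eq]; exact RingHom.injective_int _)
  have h3 : Algebra.trdeg K L = 0 := trdeg_eq_zero_iff.2 inferInstance
  unfold td
  rw [← trdeg_add_eq ℤ K (A := L), h3, add_zero]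

lemma trdeg_mono {A B : Type} [CommRing A] [CommRing B] (f : A →+* B) (hf : Function.Injective f) :
    td A ≤ td B :=
  trdeg_le_of_injective f.toIntAlgHom hf

lemma trdeg_ringEquiv {A B : Type} [CommRing A] [CommRing B] (e : A ≃+* B) :
    td A = td B :=
  e.toIntAlgEquiv.trdeg_eq

lemma dimV_spec (R : CommRingCat.{0}) [IsDomain R] [CharZero R] [IsIntegral (Spec R)] :
    dimV (Spec R) = td R :=
  trdeg_frac R (Spec R).functionField

lemma dimV_open {U X : Scheme.{0}} [IsIntegral U] [IsIntegral X] (j : U ⟶ X) [IsOpenImmersion j] :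
    dimV U = dimV X := by
  have h1 : j (genericPoint U) = genericPoint X := genericPoint_eq_of_isOpenImmersion j
  have e1 : X.presheaf.stalk (j (genericPoint U)) ≅ U.presheaf.stalk (genericPoint U) :=
    asIso (j.stalkMap (genericPoint U))
  have e2 : X.presheaf.stalk (j (genericPoint U)) ≅ X.presheaf.stalk (genericPoint X) :=
    X.presheaf.stalkCongr (.of_eq h1)
  exact trdeg_ringEquiv (e1.symm ≪≫ e2).commRingCatIsoToRingEquiv

open scoped Cardinal in
/-- Two domains of finite type over `ℚ` of the same dimension have a common extension of the same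
dimension. -/
lemma exists_common_dim (d : Cardinal) (A B : Type) [CommRing A] [CommRing B] [Algebra ℚ A] [Algebra ℚ B]
    [IsDomain A] [IsDomain B] [Algebra.FiniteType ℚ A] [Algebra.FiniteType ℚ B]
    (hA : td A = d) (hB : td B = d) :
    ∃ (C : Type) (_ : CommRing C) (_ : Algebra ℚ C), IsDomain C ∧ Algebra.FiniteType ℚ C ∧
      td C = d ∧
      ∃ (f : A →ₐ[ℚ] C) (g : B →ₐ[ℚ] C), Function.Injective f ∧ Function.Injective g := by
  have hcA : CharZero A := algebraRat.charZero A
  have hcB : CharZero B := algebraRat.charZero B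
  obtain ⟨FA, _, _, _⟩ : ∃ (F : Type) (_ : Field F) (_ : Algebra A F), IsFractionRing A F :=
    ⟨FractionRing A, inferInstance, inferInstance, inferInstance⟩
  obtain ⟨FB, _, _, _⟩ : ∃ (F : Type) (_ : Field F) (_ : Algebra B F), IsFractionRing B F :=
    ⟨FractionRing B, inferInstance, inferInstance, inferInstance⟩
  obtain ⟨KA, _, _, _, _⟩ : ∃ (K : Type) (_ : Field K) (_ : Algebra FA K), IsAlgClosed K ∧
      Algebra.IsAlgebraic FA K := ⟨AlgebraicClosure FA, inferInstance, inferInstance, inferInstance,
        inferInstance⟩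
  obtain ⟨KB, _, _, _, _⟩ : ∃ (K : Type) (_ : Field K) (_ : Algebra FB K), IsAlgClosed K ∧
      Algebra.IsAlgebraic FB K := ⟨AlgebraicClosure FB, inferInstance, inferInstance, inferInstance,
        inferInstance⟩
  have hcfA : CharZero FA := charZero_of_injective_algebraMap (IsFractionRing.injective A FA)
  have hcfB : CharZero FB := charZero_of_injective_algebraMap (IsFractionRing.injective B FB)
  have hcKA : CharZero KA := charZero_of_injective_algebraMap (algebraMap FA KA).injective
  have hcKB : CharZero KB := charZero_of_injective_algebraMap (algebraMap FB KB).injective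
  have h1 : td KA = d := by rw [trdeg_alg FA, trdeg_frac A, hA]
  have h2 : td KB = d := by rw [trdeg_alg FB, trdeg_frac B, hB]
  have f1 : FaithfulSMul ℤ KA := (faithfulSMul_iff_algebraMap_injective ℤ KA).2
    (by rw [algebraMap_int_eq]; exact RingHom.injective_int _)
  have f2 : FaithfulSMul ℤ KB := (faithfulSMul_iff_algebraMap_injective ℤ KB).2
    (by rw [algebraMap_int_eq]; exact RingHom.injective_int _)
  obtain ⟨s, hs⟩ := exists_isTranscendenceBasis ℤ KA
  obtain ⟨t, ht⟩ := exists_isTranscendenceBasis ℤ KB
  have h3 : #s = #t := by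
    rw [hs.cardinalMk_eq_trdeg, ht.cardinalMk_eq_trdeg]
    exact h1.trans h2.symm
  obtain ⟨e⟩ := Cardinal.eq.1 h3
  let ε : KA ≃+* KB := IsAlgClosed.equivOfTranscendenceBasis _ _ e hs ht
  let a : A →+* KB := (ε : KA →+* KB).comp ((algebraMap FA KA).comp (algebraMap A FA))
  let b : B →+* KB := (algebraMap FB KB).comp (algebraMap B FB)
  have ha : Function.Injective a := ε.injective.comp
    ((algebraMap FA KA).injective.comp (IsFractionRing.injective A FA))
  have hb : Function.Injective b :=
    (algebraMap FB KB).injective.comp (IsFractionRing.injective B FB)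
  let a' : A →ₐ[ℚ] KB := a.toRatAlgHom
  let b' : B →ₐ[ℚ] KB := b.toRatAlgHom
  let C : Subalgebra ℚ KB := a'.range ⊔ b'.range
  have hCf : C.FG := by
    refine Subalgebra.FG.sup ?_ ?_
    · exact (Subalgebra.fg_iff_finiteType _).2
        (Algebra.FiniteType.of_surjective a'.rangeRestrict a'.rangeRestrict_surjective)
    · exact (Subalgebra.fg_iff_finiteType _).2
        (Algebra.FiniteType.of_surjective b'.rangeRestrict b'.rangeRestrict_surjective)
  let f : A →ₐ[ℚ] C := a'.codRestrict C fun x => (le_sup_left : a'.range ≤ C) ⟨x, rfl⟩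
  let g : B →ₐ[ℚ] C := b'.codRestrict C fun x => (le_sup_right : b'.range ≤ C) ⟨x, rfl⟩
  have hf : Function.Injective f := fun x y h => ha (congrArg Subtype.val h)
  have hg : Function.Injective g := fun x y h => hb (congrArg Subtype.val h)
  refine ⟨C, inferInstance, inferInstance, inferInstance, (Subalgebra.fg_iff_finiteType _).1 hCf,
    ?_, f, g, hf, hg⟩
  refine le_antisymm ?_ ?_
  · rw [← h2]
    exact trdeg_mono (C.val : C →+* KB) Subtype.val_injective
  · rw [← hA]
    exact trdeg_mono (f : A →+* C) hf

end Pool.Agent.Helper13.PK
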