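import Pool.Agent.Helper13.PK.Dim
import Pool.Agent.Helper53.OS.Seq

/-!
# One sequence of smooth moduli spaces of planar configurations of a given dimension
-/

set_option autoImplicit false

open CategoryTheory CategoryTheory.Limits AlgebraicGeometry Pool.Agent.Y116.UV Pool.Agent.Q193.LT
  Pool.Agent.Q282.UK Pool.Agent.Z125.UN Pool.Agent.Helper3.GU Pool.Agent.Helper13.RM
  Pool.Agent.Helper10.PC Pool.Agent.Helper53.OS

namespace Pool.Agent.Helper13.PK

lemma dimV_aff (C : Type) [CommRing C] [Algebra ℚ C] [IsDomain C] [IsIntegral (aff ℚ C).left] :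
    dimV (aff ℚ C).left = td C := by
  have h1 : CharZero C := algebraRat.charZero C
  have h2 : IsDomain (CommRingCat.of C) := inferInstanceAs (IsDomain C)
  have h3 : CharZero (CommRingCat.of C) := h1
  have h4 : IsIntegral (Spec (CommRingCat.of C)) := inferInstanceAs (IsIntegral (aff ℚ C).left)
  exact dimV_spec (CommRingCat.of C)

/-- Each integral affine scheme of finite type is dominated by a smooth integral moduli space of planar
configurations of the same dimension. -/
theorem exists_dominating_dim {d : Cardinal} (hR : Presents ({0, 1} : Set ℚ)) (C : Type) [CommRing C]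
    [Algebra ℚ C] [IsDomain C] [Algebra.FiniteType ℚ C] (hd : td C = d) :
    ∃ M : Mat, SmoothMod ℚ ⊤ M.2 ∧ td (ModR ℚ M.2) = d ∧
      Dominates (modS ℚ M.2) (aff ℚ C) := by
  obtain ⟨w, hw, hs⟩ := generic_smooth_field (k := ℚ) C
  have hdm : IsDomain (Localization.Away w) :=
    IsLocalization.isDomain_localization (powers_le_nonZeroDivisors_of_noZeroDivisors hw)
  have hft : Algebra.FiniteType ℚ (Localization.Away w) := ft_loc _ _
  let W : Sch ℚ := aff ℚ (Localization.Away w)
  have hi : IsIntegral W.left := by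
    change IsIntegral (Spec (CommRingCat.of (Localization.Away w)))
    rw [affine_isIntegral_iff]
    exact hdm
  have hi' : IsIntegral (aff ℚ C).left := by
    change IsIntegral (Spec (CommRingCat.of C))
    rw [affine_isIntegral_iff]
    infer_instance
  have hW : FT True W := ft_aff True
  let o : W ⟶ aff ℚ C := affMap (IsScalarTower.toAlgHom ℚ C (Localization.Away w))
  have ho : IsOpenImmersion o.left :=
    Scheme.isOpenImmersion_SpecMap_localizationAway (R := .of C) w
  obtain ⟨n, M, s, g1, g2, g3, g4⟩ := exists_open_mod (sep := True) hR W hW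
  have hdom := isDomain_of_open s g3 g4
  have hsm : Smooth (modS ℚ M).hom := smooth_of_open s g3 (smooth_aff_iff.2 hs)
  have hMi : IsIntegral (modS ℚ M).left := (affine_isIntegral_iff _).mpr hdom
  have hso : IsOpenImmersion (s ≫ o).left := by
    change IsOpenImmersion (s.left ≫ o.left)
    infer_instance
  refine ⟨⟨n, M⟩, ⟨g1, g2, hdom, smooth_aff_iff.1 hsm, le_top⟩, ?_, ft_modT _, hsm, hMi, s ≫ o,
    dominant_open (s ≫ o) hso g4 hi'⟩
  have h1 : dimV (modS ℚ M).left = dimV (aff ℚ C).left := dimV_open (s ≫ o).left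
  have h2 : IsIntegral (aff ℚ (ModR ℚ M)).left := hMi
  rw [← hd, ← dimV_aff C, ← h1]
  exact (dimV_aff (ModR ℚ M)).symm

theorem dom_finite (d : ℕ) (e : ℕ → Mat) (m : ℕ) :
    ∃ (C : Type) (_ : CommRing C) (_ : Algebra ℚ C), IsDomain C ∧ Algebra.FiniteType ℚ C ∧
      td C = d ∧
      ∀ U : Sch ℚ, Dominates U (aff ℚ C) → ∀ j < m, IsDomain (ModR ℚ (e j).2) →
        td (ModR ℚ (e j).2) = d → Dominates U (modS ℚ (e j).2) := by
  induction m with
  | zero =>
    refine ⟨MvPolynomial (Fin d) ℚ, inferInstance, inferInstance, inferInstance, inferInstance, ?_,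
      fun U hU j hj => absurd hj (Nat.not_lt_zero j)⟩
    rw [← trdeg_rat, MvPolynomial.trdeg_of_isDomain, Cardinal.mk_fin, Cardinal.lift_natCast]
  | succ m ih =>
    obtain ⟨C, _, _, _, _, h5, h4⟩ := ih
    by_cases hdom : IsDomain (ModR ℚ (e m).2) ∧ td (ModR ℚ (e m).2) = d
    · obtain ⟨hdom, htr⟩ := hdom
      obtain ⟨E', _, _, h1', h2', h3', a', b', ha', hb'⟩ :=
        exists_common_dim (d : Cardinal) C (ModR ℚ (e m).2) h5 htr
      refine ⟨E', inferInstance, inferInstance, h1', h2', h3', fun W hW j hj hd htr' => ?_⟩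
      rcases Nat.lt_succ_iff_lt_or_eq.mp hj with hj | rfl
      · exact h4 W (hW.trans (affMap a') (dominant_affMap a' ha')) j hj hd htr'
      · exact hW.trans (affMap b') (dominant_affMap b' hb')
    · refine ⟨C, inferInstance, inferInstance, inferInstance, inferInstance, h5,
        fun W hW j hj hd htr' => ?_⟩
      rcases Nat.lt_succ_iff_lt_or_eq.mp hj with hj | rfl
      · exact h4 W hW j hj hd htr'
      · exact absurd ⟨hd, htr'⟩ hdom

/-- **One sequence of smooth moduli spaces of planar configurations of dimension `d`.** -/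
theorem exists_seq_dim (hR : Presents ({0, 1} : Set ℚ)) (d : ℕ) :
    ∃ M : ℕ → Mat, (∀ i, SmoothMod ℚ ⊤ (M i).2 ∧ td (ModR ℚ (M i).2) = d) ∧
      ∀ X : Sch ℚ, FT True X → ∀ _ : IsIntegral X.left, dimV X.left = d → ∃ i₀, ∀ i, i₀ ≤ i →
        Dominates (modS ℚ (M i).2) X := by
  have hne : Nonempty Mat := ⟨⟨0, Matroid.emptyOn _⟩⟩
  obtain ⟨e, he⟩ := exists_surjective_nat Mat
  have key : ∀ m : ℕ, ∃ M : Mat, (SmoothMod ℚ ⊤ M.2 ∧ td (ModR ℚ M.2) = d) ∧
      ∀ j < m, IsDomain (ModR ℚ (e j).2) → td (ModR ℚ (e j).2) = d →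
        Dominates (modS ℚ M.2) (modS ℚ (e j).2) := by
    intro m
    obtain ⟨C, _, _, _, _, h5, h4⟩ := dom_finite d e m
    obtain ⟨M, hM, hMd, hd⟩ := exists_dominating_dim hR C h5
    exact ⟨M, ⟨hM, hMd⟩, h4 _ hd⟩
  choose M hM h4 using key
  choose f hf using he
  refine ⟨M, hM, fun X hX hi hdim => ?_⟩
  obtain ⟨n, N, s, g1, g2, g3, g4⟩ := exists_open_mod (sep := True) hR X hX
  have hdom := isDomain_of_open s g3 g4
  have hMi : IsIntegral (modS ℚ N).left := (affine_isIntegral_iff _).mpr hdom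
  have h2 : IsIntegral (aff ℚ (ModR ℚ N)).left := hMi
  have h1 : dimV (modS ℚ N).left = dimV X.left := dimV_open s.left
  have htr : td (ModR ℚ N) = d := by
    rw [← dimV_aff (ModR ℚ N), ← hdim, ← h1]
    rfl
  refine ⟨f ⟨n, N⟩ + 1, fun i hi' => ?_⟩
  have h5 := h4 i (f ⟨n, N⟩) (by omega)
  rw [hf ⟨n, N⟩] at h5
  exact (h5 hdom htr).trans s (dominant_open s g3 g4 hi)

end Pool.Agent.Helper13.PK
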