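import Pool.Agent.Helper13.PK.Defs

/-!
# Algebraic subgroups of the fibres of abelian schemes: base change
-/

set_option autoImplicit false

open CategoryTheory MonoidalCategory CartesianMonoidalCategory MonObj Limits AlgebraicGeometry
  Pool.Agent.Helper53.UBT

namespace Pool.Agent.Helper13.PK

variable {U S T : Scheme.{0}} (h : U ⟶ S) (A : Over S) (b : T ⟶ U)

/-- The points of the base change. -/
noncomputable def tr (P : Over.mk (b ≫ h) ⟶ A) : Over.mk b ⟶ bc h A :=
  Over.homMk (pullback.lift P.left b (Over.w P)) (pullback.lift_snd _ _ _)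

noncomputable def unitAt : Over.mk b ⟶ (Over.pullback h).obj (Over.mk (b ≫ h)) :=
  Over.homMk (pullback.lift (𝟙 T) b (by simp)) (pullback.lift_snd _ _ _)

lemma tr_eq (P : Over.mk (b ≫ h) ⟶ A) : tr h A b P = unitAt h b ≫ (Over.pullback h).map P := by
  apply Over.OverMorphism.ext
  change pullback.lift P.left b (Over.w P) = pullback.lift (𝟙 T) b (by simp) ≫
    ((Over.pullback h).map P).left
  have h2 : ((Over.pullback h).map P).left ≫ pullback.fst A.hom h =
      pullback.fst (b ≫ h) h ≫ P.left := pullback.lift_fst _ _ _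
  have h3 : ((Over.pullback h).map P).left ≫ pullback.snd A.hom h =
      pullback.snd (b ≫ h) h := Over.w ((Over.pullback h).map P)
  refine pullback.hom_ext ?_ ?_
  · rw [pullback.lift_fst, Category.assoc, h2, ← Category.assoc]
    erw [pullback.lift_fst]
    exact (Category.id_comp _).symm
  · rw [pullback.lift_snd, Category.assoc, h3]
    erw [pullback.lift_snd]

lemma tr_mul [GrpObj A] (P Q : Over.mk (b ≫ h) ⟶ A) : tr h A b (P * Q) = tr h A b P * tr h A b Q := by
  rw [tr_eq, tr_eq, tr_eq, Functor.map_mul, comp_mul]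

lemma tr_fst (P : Over.mk (b ≫ h) ⟶ A) : (tr h A b P).left ≫ pullback.fst A.hom h = P.left :=
  pullback.lift_fst _ _ _

lemma tr_bijective : Function.Bijective (tr h A b) := by
  constructor
  · intro P Q hPQ
    apply Over.OverMorphism.ext
    rw [← tr_fst h A b P, ← tr_fst h A b Q, hPQ]
  · intro Q
    have hw : Q.left ≫ pullback.snd A.hom h = b := Over.w Q
    refine ⟨Over.homMk (Q.left ≫ pullback.fst A.hom h) ?_, ?_⟩
    · change (Q.left ≫ pullback.fst A.hom h) ≫ A.hom = b ≫ h
      rw [Category.assoc, pullback.condition, ← Category.assoc, hw]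
    · apply Over.OverMorphism.ext
      refine pullback.hom_ext ?_ ?_
      · exact pullback.lift_fst _ _ _
      · exact (pullback.lift_snd _ _ _).trans hw.symm

/-- The isomorphism of the groups of points. -/
noncomputable def trEquiv [GrpObj A] : (Over.mk (b ≫ h) ⟶ A) ≃* (Over.mk b ⟶ bc h A) :=
  { Equiv.ofBijective (tr h A b) (tr_bijective h A b) with
    map_mul' := tr_mul h A b }

lemma trEquiv_apply [GrpObj A] (P : Over.mk (b ≫ h) ⟶ A) : trEquiv h A b P = tr h A b P := rfl

/-- The isomorphism of the fibres. -/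
noncomputable def fibIso : pullback (bc h A).hom b ≅ pullback A.hom (b ≫ h) :=
  pullbackLeftPullbackSndIso A.hom h b

lemma fibMap_tr (P : Over.mk (b ≫ h) ⟶ A) :
    fibMap (bc h A) b (tr h A b P) ≫ (fibIso h A b).hom = fibMap A (b ≫ h) P := by
  refine pullback.hom_ext ?_ ?_
  · unfold fibIso fibMap
    rw [Category.assoc, pullback.lift_fst]
    erw [pullbackLeftPullbackSndIso_hom_fst]
    rw [← Category.assoc]
    erw [pullback.lift_fst]
    exact tr_fst h A b P
  · unfold fibIso fibMap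
    rw [Category.assoc, pullback.lift_snd]
    erw [pullbackLeftPullbackSndIso_hom_snd]
    erw [pullback.lift_snd]

/-- The homeomorphism of the fibres. -/
noncomputable def fibHomeo : ↥(pullback (bc h A).hom b) ≃ₜ ↥(pullback A.hom (b ≫ h)) :=
  Scheme.homeoOfIso (fibIso h A b)

lemma range_tr (P : Over.mk (b ≫ h) ⟶ A) :
    fibHomeo h A b '' Set.range (fibMap (bc h A) b (tr h A b P)) = Set.range (fibMap A (b ≫ h) P) := by
  rw [← fibMap_tr h A b P]
  ext x
  constructor
  · rintro ⟨-, ⟨t, rfl⟩, rfl⟩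
    exact ⟨t, rfl⟩
  · rintro ⟨t, rfl⟩
    exact ⟨_, ⟨t, rfl⟩, rfl⟩

lemma pts_tr [GrpObj A] (H : Subgroup (Over.mk (b ≫ h) ⟶ A)) :
    fibHomeo h A b '' pts (bc h A) b (H.map (trEquiv h A b).toMonoidHom : Subgroup _) =
      pts A (b ≫ h) H := by
  ext x
  constructor
  · rintro ⟨y, ⟨-, ⟨P, hP, rfl⟩, hy⟩, rfl⟩
    refine ⟨P, hP, ?_⟩
    rw [← range_tr]
    exact ⟨y, hy, rfl⟩
  · rintro ⟨P, hP, hx⟩
    rw [← range_tr] at hx
    obtain ⟨y, hy, rfl⟩ := hx
    exact ⟨y, ⟨_, ⟨P, hP, rfl⟩, hy⟩, rfl⟩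

lemma zar_tr [GrpObj A] (H : Subgroup (Over.mk (b ≫ h) ⟶ A)) :
    fibHomeo h A b '' zar (bc h A) b (H.map (trEquiv h A b).toMonoidHom : Subgroup _) =
      zar A (b ≫ h) H := by
  unfold zar
  rw [Homeomorph.image_closure, pts_tr]

lemma algebraic_tr [GrpObj A] (H : Subgroup (Over.mk (b ≫ h) ⟶ A)) :
    IsAlgebraic (bc h A) b (H.map (trEquiv h A b).toMonoidHom) ↔ IsAlgebraic A (b ≫ h) H := by
  constructor
  · intro h1 P hP
    have h2 : tr h A b P ∈ H.map (trEquiv h A b).toMonoidHom := by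
      apply h1
      rw [← zar_tr, ← range_tr] at hP
      exact (Set.image_subset_image_iff (fibHomeo h A b).injective).1 hP
    obtain ⟨Q, hQ, hQP⟩ := h2
    have h3 : Q = P := (trEquiv h A b).injective hQP
    rw [← h3]
    exact hQ
  · intro h1 P hP
    obtain ⟨Q, rfl⟩ := (tr_bijective h A b).2 P
    refine ⟨Q, h1 Q ?_, rfl⟩
    rw [← zar_tr, ← range_tr]
    exact Set.image_mono hP

lemma dimension_tr [GrpObj A] (H : Subgroup (Over.mk (b ≫ h) ⟶ A)) :
    dimension (bc h A) b (H.map (trEquiv h A b).toMonoidHom : Subgroup _) = dimension A (b ≫ h) H := by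
  unfold dimension
  rw [← zar_tr]
  exact IsHomeomorph.topologicalKrullDim_eq _ ((fibHomeo h A b).image _).isHomeomorph

end Pool.Agent.Helper13.PK
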